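import Pool.Agent.Q277.WSum.Main

/-!
# MP_5cc6ce_nt

`n ∣ ∑_{k<n} (-1)^k (42 k + 37) a(k)` for every `n ≥ 1`, where
`a(k) = ∑_j C(k,j)^2 C(k-j,j)^2 (-16)^j`.
-/

set_option autoImplicit false

namespace Pool.Agent.Results.MP_5cc6ce_nt.Divisibility

open Finset

/-- `a(n) = ∑_{j=0}^{n} C(n,j)^2 C(n-j,j)^2 (-16)^j`. -/
def a (n : ℕ) : ℤ :=
  ∑ j ∈ range (n + 1), (n.choose j : ℤ) ^ 2 * ((n - j).choose j : ℤ) ^ 2 * (-16) ^ j

/-- `S(n) = ∑_{0 ≤ k < n} (-1)^k (42 k + 37) a(k)`. -/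
def S (n : ℕ) : ℤ := ∑ k ∈ range n, (-1) ^ k * (42 * (k : ℤ) + 37) * a k

/-- **MP_5cc6ce_nt, Q1.** `n` divides `S(n)` for every integer `n ≥ 1`. -/
theorem result (n : ℕ) (hn : 1 ≤ n) : (n : ℤ) ∣ S n := by
  have h := Pool.Agent.Q277.WSum.main n hn
  have e : S n = ∑ k ∈ range n, (-1 : ℤ) ^ k * ((42 * (k : ℤ) + 37)
      * Pool.Agent.Q267.Seven.a k) := by
    unfold S
    refine sum_congr rfl fun k _ => ?_
    have ea : a k = Pool.Agent.Q267.Seven.a k := by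
      unfold a Pool.Agent.Q267.Seven.a
      refine sum_congr rfl fun j _ => ?_
      ring
    rw [ea, mul_assoc]
  rw [e]
  exact h

end Pool.Agent.Results.MP_5cc6ce_nt.Divisibility
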